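import Pool.Agent.MCA.PKZ2
import Pool.Agent.MCA.PKR
import Pool.Agent.MCA.QUD
/-!
Coverings by certified boxes.
-/
set_option autoImplicit false

open Pool.Agent.MSQ Pool.Agent.MTR Pool.Agent.PKD Pool.Agent.MCA

namespace Pool.Agent.MCD

theorem al_nil {α : Type} {p : α → Prop} : ∀ b ∈ ([] : List α), p b := by simp

theorem al_cons {α : Type} {p : α → Prop} {b : α} {l : List α} (h : p b) (hl : ∀ b ∈ l, p b) :
    ∀ x ∈ b :: l, p x := List.forall_mem_cons.2 ⟨h, hl⟩

theorem bok (rg : Rgn) (r : Rd) (RP : List Pk) (R : List P) (hr : rgOK rg r RP = true)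
    (he : eqPL R (RP.map (unpf r.K r.h)) = true) (b : Bw) (h : bchkz [] rg r RP b = true) :
    BoxOK rg R (itB b) :=
  BoxOK_congr rg R r.K r.h RP he _ (bchkz_sound [] rg r RP hr b h)

theorem cov_of {cov : List (List Itm) → Bool} {rg : Rgn} {R : List P} (L : List (List Bw))
    (hc : cov (L.map fun c => c.map itB) = true) (hb : ∀ c ∈ L, ∀ b ∈ c, BoxOK rg R (itB b)) : Cov cov rg R := by
  refine ⟨_, hc, ?_⟩
  intro c hc' b hb'
  obtain ⟨c0, h0, rfl⟩ := List.mem_map.1 hc'
  obtain ⟨b0, h1, rfl⟩ := List.mem_map.1 hb'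
  exact hb c0 h0 b0 h1

private theorem ev_z (x y : ℝ) (p : P) (h : isZ p = true) : ev x y p = 0 := by
  have h1 : eqP p [] = true := by
    have e : pAdd p (pSm (-1) []) = p := by
      cases p <;> rfl
    rw [eqP, e, h]
  have h2 := ev_eqP x y p [] h1
  rw [h2, ev_nil]

private theorem qf_z (n : ℕ) : ∀ (A s : List ℝ), s.length = n → (∀ a ∈ A, a = 0) → qf A s = 0 := by
  induction n with
  | zero =>
    intro A s hs _
    have : s = [] := List.eq_nil_of_length_eq_zero hs
    subst this
    cases A <;> rfl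
  | succ n ih =>
    intro A s hs hA
    cases s with
    | nil => simp at hs
    | cons a s =>
      have h1 : ∀ (B t : List ℝ), (∀ b ∈ B, b = 0) → dotL B t = 0 := by
        intro B
        induction B with
        | nil => intro t _; cases t <;> rfl
        | cons b B ihB =>
          intro t hB
          cases t with
          | nil => rfl
          | cons c t =>
            rw [dotL, hB b List.mem_cons_self, ihB t fun z hz => hB z (List.mem_cons_of_mem _ hz)]
            ring
      simp only [qf]
      rw [h1 _ _ fun z hz => hA z (List.mem_of_mem_take hz), ih _ _ (by simpa using hs) fun z hz => hA z (List.mem_of_mem_drop hz)]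
      ring

theorem cov_zero {rg : Rgn} {R : List P} (h : R.all isZ = true) : Cov (covR 0 1 0 1) rg R := by
  refine ⟨[[⟨0, 1, 1, 0, 1, 1, [], [], [], [], [], []⟩]], by decide +kernel, ?_⟩
  intro c _ b _ x y _ s hs _
  refine le_of_eq (qf_z 11 _ s hs ?_).symm
  intro a ha
  obtain ⟨p, hp, rfl⟩ := List.mem_map.1 ha
  exact ev_z x y p (List.all_eq_true.1 h p hp)

end Pool.Agent.MCD
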